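import Mathlib
import Pool.Agent.W757.SF.Fin

/-!
# Schiffer's conjecture for almost all deformations of an arbitrary domain

Let `Ω` be any bounded nonempty open set of the plane (no regularity of the boundary is used).

1. For every `R` there are at most `(2 ρ R)^3` matrices `N = lam * AᵀA` with `lam ‖A‖² ≤ R²` such
   that the overdetermined problem (S) has a nontrivial solution with eigenvalue `lam` on the image
   `A Ω`; here `Ω` lies in a disc of radius `ρ` and `A` is any linear bijection.
2. The shapes (matrices `AᵀA` up to a factor) of the linear bijections `A` such that (S) has a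
   nontrivial solution on `A Ω` for some eigenvalue form a countable set.
3. Nonlinear shears: for every orthonormal pair `e, f` and every continuous profile `h` that has a
   unique maximum point or a unique minimum point on the closed projection of `Ω`, the domain
   `{x + t h(⟨x, e⟩) f : x ∈ Ω}` carries a nontrivial solution of (S) for at most countably many
   real `t`.
-/

set_option autoImplicit false

open Pool.Agent.W757.SF

namespace Pool.Agent.Results.MP_83fd13_an.DeformedDomains

theorem result (Ω : Set E) (ho : IsOpen Ω) (hne : Ω.Nonempty) (a : E) (ρ : ℝ)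
    (hρ : Ω ⊆ Metric.closedBall a ρ) :
    (∀ R : ℝ, 0 < R → (exceptional Ω R).Finite ∧
      ((exceptional Ω R).ncard : ℝ) ≤ (2 * ρ * R) ^ 3) ∧
    {σ : ℝ × ℝ | ∃ (A : E ≃L[ℝ] E) (lam : ℝ), 0 < lam ∧ Solvable (A '' Ω) lam ∧
      shape A = σ}.Countable ∧
    (∀ e f : E, ‖e‖ = 1 → ‖f‖ = 1 → @inner ℝ E _ e f = 0 →
      ∀ h : ℝ → ℝ, Continuous h →
      (∃ x0 ∈ closure ((fun x : E => @inner ℝ E _ x e) '' Ω),
        (∀ y ∈ closure ((fun x : E => @inner ℝ E _ x e) '' Ω), y ≠ x0 → h y < h x0) ∨
        (∀ y ∈ closure ((fun x : E => @inner ℝ E _ x e) '' Ω), y ≠ x0 → h x0 < h y)) →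
      {t : ℝ | ∃ lam : ℝ, 0 < lam ∧ Solvable (shear e f h t '' Ω) lam}.Countable) :=
  ⟨fun R hR => part_one ho hne a ρ hρ R hR, part_two ho hne a ρ hρ,
    fun e f he hf hef h hc hext => part_three ho hne a ρ hρ e f he hf hef h hc hext⟩

end Pool.Agent.Results.MP_83fd13_an.DeformedDomains
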