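import Pool.Agent.W632.Schiffer4

set_option autoImplicit false

open MeasureTheory

namespace Pool.Agent.Results.MP_83fd13_an.LinearImages

/-- Euclidean space R^n -/
abbrev V (n : ℕ) : Type := EuclideanSpace ℝ (Fin n)

/-- invertible linear maps of R^n -/
abbrev Lin (n : ℕ) : Type := V n ≃L[ℝ] V n

/-- the value A x -/
def app {n : ℕ} (A : Lin n) (x : V n) : V n := A x

/-- the image A(Ω) -/
def img {n : ℕ} (A : Lin n) (Ω : Set (V n)) : Set (V n) := app A '' Ω

/-- A and B differ by a similarity of ratio s: ‖A x‖ = s ‖B x‖ for all x, that is, A = s U B with an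
orthogonal map U. -/
def Similar {n : ℕ} (s : ℝ) (A B : Lin n) : Prop := ∀ x, ‖app A x‖ = s * ‖app B x‖

/-- the operator norm of A is at most R -/
def NormLe {n : ℕ} (A : Lin n) (R : ℝ) : Prop := ∀ x, ‖app A x‖ ≤ R * ‖x‖

/-- compactly supported C^1 functions on R^n -/
def Test {n : ℕ} (φ : V n → ℝ) : Prop := ContDiff ℝ 1 φ ∧ HasCompactSupport φ

/-- directional derivative of φ at x in the direction v -/
noncomputable def deriv {n : ℕ} (φ : V n → ℝ) (x v : V n) : ℝ := fderiv ℝ φ x v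

/-- integral over Ω -/
noncomputable def integ {n : ℕ} (Ω : Set (V n)) (f : V n → ℝ) : ℝ := ∫ x in Ω, f x

/-- scalar product -/
noncomputable def dot {n : ℕ} (x y : V n) : ℝ := inner ℝ x y

/-- u is in L^2(Ω) and is not zero almost everywhere in Ω -/
def NonzeroL2 {n : ℕ} (Ω : Set (V n)) (u : V n → ℝ) : Prop :=
  MemLp u 2 (volume.restrict Ω) ∧ ¬ (u =ᵐ[volume.restrict Ω] 0)

/-- the vector field G is in L^2(Ω) -/
def VecL2 {n : ℕ} (Ω : Set (V n)) (G : V n → V n) : Prop := MemLp G 2 (volume.restrict Ω)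

/-- `Solvable Ω lam`: the overdetermined problem -Δu = lam u in Ω, ∂u/∂n = 0 on ∂Ω, u = c on ∂Ω
has a nontrivial weak solution u in H^1(Ω) for some real constant c; G is the weak gradient of u
and both boundary conditions are expressed by testing with functions which do not vanish on ∂Ω. -/
def Solvable {n : ℕ} (Ω : Set (V n)) (lam : ℝ) : Prop :=
  ∃ (c : ℝ) (u : V n → ℝ) (G : V n → V n), NonzeroL2 Ω u ∧ VecL2 Ω G ∧
    (∀ φ : V n → ℝ, Test φ → ∀ v : V n,
      integ Ω (fun x => (u x - c) * deriv φ x v) = - integ Ω (fun x => dot (G x) v * φ x)) ∧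
    (∀ φ : V n → ℝ, Test φ →
      integ Ω (fun x => deriv φ x (G x)) = lam * integ Ω (fun x => u x * φ x))

open Pool.Agent.W632.Schiffer in
theorem bad_of {n : ℕ} {Ω : Set (V n)} (ho : IsOpen Ω) (hb : Bornology.IsBounded Ω) (A : Lin n)
    {lam : ℝ} (hlam : 0 < lam) (h : Solvable (img A Ω) lam) :
    Bad Ω (scale (Real.sqrt lam) (Real.sqrt_pos.mpr hlam) A) := by
  obtain ⟨c, u, G, ⟨hu, hne⟩, -, h1, h2⟩ := h
  exact bad_of_solvable hb ho A hlam hu (fun φ hφ1 hφ2 v => h1 φ ⟨hφ1, hφ2⟩ v)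
    (fun φ hφ1 hφ2 => h2 φ ⟨hφ1, hφ2⟩) hne

open Pool.Agent.W632.Schiffer in
theorem result (n : ℕ) (hn : 2 ≤ n) (Ω : Set (V n)) (ho : IsOpen Ω)
    (hb : Bornology.IsBounded Ω) (hne : Ω.Nonempty) :
    (∀ R : ℝ, 0 ≤ R → ∀ S : Finset (Lin n),
      (∀ A ∈ S, NormLe A R ∧ Solvable (img A Ω) 1) →
      (∀ A ∈ S, ∀ B ∈ S, Similar 1 A B → A = B) → (S.card : ℝ) ≤ R * Metric.diam Ω) ∧
    (∃ C : Set (Lin n), C.Countable ∧
      ∀ (A : Lin n) (lam : ℝ), 0 < lam → Solvable (img A Ω) lam →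
        ∃ B ∈ C, ∃ s : ℝ, 0 < s ∧ Similar s A B) := by
  classical
  have : Nontrivial (V n) := by
    have : Nonempty (Fin n) := ⟨⟨0, by omega⟩⟩
    infer_instance
  constructor
  · intro R hR S hS hinj
    rw [mul_comm]
    refine card_le hb ho hne hR S (fun A hA => ⟨?_, ?_⟩) (fun A hA B hB h => ?_)
    · exact ContinuousLinearMap.opNorm_le_bound _ hR (fun x => (hS A hA).1 x)
    · have := bad_of ho hb A one_pos (hS A hA).2
      intro ξ hξ
      have h4 := this ξ hξ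
      simpa only [scale_apply, Real.sqrt_one, one_smul] using h4
    · exact hinj A hA B hB (fun x => by rw [one_mul]; exact h x)
  · let E := V n
    let Z : ℕ → Set (E ≃L[ℝ] E) := fun N => {B | ‖(B : E →L[ℝ] E)‖ ≤ N ∧ Bad Ω B}
    let key : (E ≃L[ℝ] E) → E → ℝ := fun B x => ‖B x‖
    have hex : ∀ N, ∃ T ⊆ Z N, Set.BijOn key T (key '' Z N) := fun N =>
      Set.exists_subset_bijOn (Z N) key
    choose T hTZ hT using hex
    have hfin : ∀ N, (T N).Finite := by
      intro N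
      by_contra hinf
      obtain ⟨S, hST, hcard⟩ := Set.Infinite.exists_subset_card_eq hinf
        (⌊Metric.diam Ω * (N : ℝ)⌋₊ + 1)
      have := card_le hb ho hne (Nat.cast_nonneg N) S (fun B hB => hTZ N (hST hB))
        (fun B hB B' hB' h => (hT N).injOn (hST hB) (hST hB') (funext h))
      rw [hcard] at this
      push_cast at this
      have h2 := Nat.lt_floor_add_one (Metric.diam Ω * (N : ℝ))
      linarith
    refine ⟨⋃ N, T N, Set.countable_iUnion fun N => (hfin N).countable, ?_⟩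
    intro A lam hlam hsol
    have hbad := bad_of ho hb A hlam hsol
    set B0 : E ≃L[ℝ] E := scale (Real.sqrt lam) (Real.sqrt_pos.mpr hlam) A with hB0
    obtain ⟨N, hN⟩ := exists_nat_ge ‖(B0 : E →L[ℝ] E)‖
    have hmem : key B0 ∈ key '' Z N := ⟨B0, ⟨hN, hbad⟩, rfl⟩
    obtain ⟨B, hBT, hkey⟩ := (hT N).surjOn hmem
    refine ⟨B, Set.mem_iUnion.mpr ⟨N, hBT⟩, (Real.sqrt lam)⁻¹, inv_pos.mpr (Real.sqrt_pos.mpr hlam),
      fun x => ?_⟩
    have h1 : ‖B x‖ = ‖B0 x‖ := congrFun hkey x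
    have h2 : ‖B0 x‖ = Real.sqrt lam * ‖A x‖ := by
      rw [hB0, scale_apply, norm_smul, Real.norm_eq_abs, abs_of_pos (Real.sqrt_pos.mpr hlam)]
    show ‖A x‖ = _ * ‖B x‖
    rw [h1, h2, ← mul_assoc, inv_mul_cancel₀ (Real.sqrt_pos.mpr hlam).ne', one_mul]

end Pool.Agent.Results.MP_83fd13_an.LinearImages
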